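import Pool.Agent.Y773.NV.St1

/-!
# Project NV: bounds for the gamma ratio
-/

set_option autoImplicit false

open Complex MeasureTheory

namespace Pool.Agent.Y279.NV

open Pool.Agent.Y773.NV

theorem norm_Gamma_le {s : ℂ} (hs : 0 < s.re) : ‖Complex.Gamma s‖ ≤ Real.Gamma s.re := by
  rw [Complex.Gamma_eq_integral hs, Real.Gamma_eq_integral hs]
  refine (norm_integral_le_integral_norm _).trans (le_of_eq ?_)
  refine setIntegral_congr_fun measurableSet_Ioi ?_
  intro x hx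
  have hx' : 0 < x := hx
  simp only [norm_mul, Complex.norm_real, Real.norm_eq_abs, Real.abs_exp]
  rw [Complex.norm_cpow_eq_rpow_re_of_pos hx']
  simp

/-- the real majorant -/
noncomputable def gq (x : ℝ) : ℝ := Real.pi ^ (-x / 2) * Real.Gamma (x / 2)

theorem norm_Gammaℝ_le {s : ℂ} (hs : 0 < s.re) : ‖Complex.Gammaℝ s‖ ≤ gq s.re := by
  unfold gq
  rw [Complex.Gammaℝ_def, norm_mul, Complex.norm_cpow_eq_rpow_re_of_pos Real.pi_pos]
  have h1 : (-s / 2).re = -s.re / 2 := by simp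
  have h2 : (s / 2).re = s.re / 2 := by simp
  rw [h1]
  refine mul_le_mul_of_nonneg_left ?_ (by positivity)
  have := norm_Gamma_le (s := s / 2) (by rw [h2]; linarith)
  rwa [h2] at this

theorem conj_Gammaℝ (s : ℂ) :
    (starRingEnd ℂ) (Complex.Gammaℝ s) = Complex.Gammaℝ ((starRingEnd ℂ) s) := by
  rw [Complex.Gammaℝ_def, Complex.Gammaℝ_def, map_mul, ← Complex.Gamma_conj]
  have h1 : (starRingEnd ℂ) (s / 2) = (starRingEnd ℂ) s / 2 := by
    rw [map_div₀]; congr 1; exact Complex.conj_ofReal 2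
  have h2 : (starRingEnd ℂ) (-s / 2) = -(starRingEnd ℂ) s / 2 := by
    rw [map_div₀, map_neg]; congr 1; exact Complex.conj_ofReal 2
  rw [h1, ← h2, Complex.cpow_conj _ _ (by
    rw [Complex.arg_ofReal_of_nonneg Real.pi_pos.le]
    exact Real.pi_pos.ne), Complex.conj_ofReal]

section
variable {ι : Type} [Fintype ι]

theorem conj_gm (e : ι → ℕ) (s : ℂ) :
    (starRingEnd ℂ) (gm e s) = gm e ((starRingEnd ℂ) s) := by
  unfold gm
  rw [map_prod]
  refine Finset.prod_congr rfl fun i _ => ?_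
  rw [conj_Gammaℝ, map_add, map_natCast]

theorem gr_eq (e : ι → ℕ) (t : ℝ) (w : ℂ) : gr e t w =
    gm e (hp t + w) * gm e ((starRingEnd ℂ) (hp t) + w) /
      (gm e (hp t) * gm e ((starRingEnd ℂ) (hp t))) := by
  unfold gr
  rw [conj_gm, conj_gm, map_add, Complex.conj_conj]

theorem hp_re (t : ℝ) : (hp t).re = 1 / 2 := by simp [hp]

theorem hp_conj_re (t : ℝ) : ((starRingEnd ℂ) (hp t)).re = 1 / 2 := by
  rw [Complex.conj_re, hp_re]

theorem diff_Gammaℝ {s : ℂ} (hs : 0 < s.re) : DifferentiableAt ℂ Complex.Gammaℝ s := by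
  have h1 := (Complex.differentiable_Gammaℝ_inv s).inv
    (inv_ne_zero (Complex.Gammaℝ_ne_zero_of_re_pos hs))
  have h2 : (fun s => (Complex.Gammaℝ s)⁻¹)⁻¹ = Complex.Gammaℝ := by
    funext z
    simp
  rwa [h2] at h1

theorem gm_ne (e : ι → ℕ) {s : ℂ} (hs : 0 < s.re) : gm e s ≠ 0 := by
  unfold gm
  refine Finset.prod_ne_zero_iff.2 fun i _ => Complex.Gammaℝ_ne_zero_of_re_pos ?_
  rw [Complex.add_re, Complex.natCast_re]
  positivity

theorem gm_diff (e : ι → ℕ) {z : ℂ} {w : ℂ} (hs : 0 < (z + w).re) :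
    DifferentiableAt ℂ (fun w => gm e (z + w)) w := by
  unfold gm
  refine DifferentiableAt.fun_finsetProd fun i _ => ?_
  have h1 : 0 < (z + w + (e i : ℂ)).re := by
    rw [Complex.add_re _ ((e i : ℕ) : ℂ), Complex.natCast_re]
    positivity
  exact (diff_Gammaℝ h1).comp w ((differentiableAt_id.const_add z).add_const _)

theorem gm_le {M : ℝ} (hM : ∀ x : ℝ, 1 / 4 ≤ x → x ≤ 5 / 2 → gq x ≤ M) (hM0 : 0 ≤ M) (e : ι → ℕ)
    (he : ∀ i, e i ≤ 1) {s : ℂ} (h1 : 1 / 4 ≤ s.re) (h2 : s.re ≤ 3 / 2) :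
    ‖gm e s‖ ≤ M ^ Fintype.card ι := by
  unfold gm
  rw [norm_prod, ← Finset.card_univ, ← Finset.prod_const]
  refine Finset.prod_le_prod (fun _ _ => norm_nonneg _) fun i _ => ?_
  have hei : ((e i : ℕ) : ℝ) ≤ 1 := by exact_mod_cast he i
  have hei0 : (0 : ℝ) ≤ ((e i : ℕ) : ℝ) := by positivity
  have h3 : (s + (e i : ℂ)).re = s.re + e i := by rw [Complex.add_re, Complex.natCast_re]
  refine (norm_Gammaℝ_le (by rw [h3]; linarith)).trans ?_
  rw [h3]
  exact hM _ (by linarith) (by linarith)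

theorem gm_ge {B c : ℝ} (hc0 : 0 ≤ c) (hc : ∀ (t : ℝ) (j : ℕ), |t| ≤ B → j ≤ 1 →
    c ≤ ‖Complex.Gammaℝ (1 / 2 + (t : ℂ) * I + j)‖) (e : ι → ℕ) (he : ∀ i, e i ≤ 1) (t : ℝ)
    (ht : |t| ≤ B) : c ^ Fintype.card ι ≤ ‖gm e (hp t)‖ := by
  unfold gm
  rw [norm_prod, ← Finset.card_univ, ← Finset.prod_const]
  exact Finset.prod_le_prod (fun _ _ => hc0) fun i _ => hc t (e i) ht (he i)

end

theorem exists_upper : ∃ M : ℝ, 0 ≤ M ∧ ∀ x : ℝ, 1 / 4 ≤ x → x ≤ 5 / 2 → gq x ≤ M := by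
  have hcont : ContinuousOn gq (Set.Icc (1 / 4) (5 / 2)) := by
    intro x hx
    apply ContinuousAt.continuousWithinAt
    unfold gq
    refine ContinuousAt.mul ?_ ?_
    · exact (Real.continuousAt_const_rpow Real.pi_ne_zero).comp (by fun_prop)
    · have : DifferentiableAt ℝ Real.Gamma (x / 2) := by
        refine Real.differentiableAt_Gamma fun m => ?_
        have h1 := hx.1
        have h2 : (0 : ℝ) ≤ m := by positivity
        intro h3
        linarith
      exact this.continuousAt.comp (f := fun x : ℝ => x / 2) (by fun_prop)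
  obtain ⟨M, hM⟩ := isCompact_Icc.bddAbove_image hcont
  refine ⟨max M 0, le_max_right _ _, fun x h1 h2 => ?_⟩
  exact (hM ⟨x, ⟨h1, h2⟩, rfl⟩).trans (le_max_left _ _)

theorem exists_lower (B : ℝ) (hB : 0 ≤ B) (j : ℕ) : ∃ c : ℝ, 0 < c ∧ ∀ t : ℝ, |t| ≤ B →
    c ≤ ‖Complex.Gammaℝ (1 / 2 + (t : ℂ) * I + j)‖ := by
  have hpos : ∀ t : ℝ, 0 < (1 / 2 + (t : ℂ) * I + j).re := by
    intro t
    have : (1 / 2 + (t : ℂ) * I + j).re = 1 / 2 + j := by simp
    rw [this]
    positivity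
  have hcont : Continuous fun t : ℝ => ‖Complex.Gammaℝ (1 / 2 + (t : ℂ) * I + j)‖ := by
    refine continuous_iff_continuousAt.2 fun t => ?_
    refine ContinuousAt.norm ?_
    exact (diff_Gammaℝ (hpos t)).continuousAt.comp
      (f := fun t : ℝ => 1 / 2 + (t : ℂ) * I + j) (by fun_prop)
  obtain ⟨t₀, -, ht₀⟩ := (isCompact_Icc (a := -B) (b := B)).exists_isMinOn
    ⟨0, by constructor <;> linarith⟩ hcont.continuousOn
  refine ⟨_, norm_pos_iff.2 (Complex.Gammaℝ_ne_zero_of_re_pos (hpos t₀)), fun t ht => ?_⟩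
  exact ht₀ (abs_le.1 ht)

theorem t_gam : St_GAM := by
  intro ι _ B hB
  obtain ⟨M, hM0, hM⟩ := exists_upper
  obtain ⟨c0, hc0, hc0'⟩ := exists_lower B hB 0
  obtain ⟨c1, hc1, hc1'⟩ := exists_lower B hB 1
  obtain ⟨c, hc⟩ : ∃ c, c = min c0 c1 := ⟨_, rfl⟩
  have hcp : 0 < c := by rw [hc]; exact lt_min hc0 hc1
  have hcl : ∀ (t : ℝ) (j : ℕ), |t| ≤ B → j ≤ 1 →
      c ≤ ‖Complex.Gammaℝ (1 / 2 + (t : ℂ) * I + j)‖ := by
    intro t j ht hj
    rcases Nat.le_one_iff_eq_zero_or_eq_one.1 hj with rfl | rfl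
    · exact (hc ▸ min_le_left c0 c1).trans (hc0' t ht)
    · exact (hc ▸ min_le_right c0 c1).trans (hc1' t ht)
  refine ⟨max 1 ((M ^ Fintype.card ι * M ^ Fintype.card ι) /
    (c ^ Fintype.card ι * c ^ Fintype.card ι)), le_max_left _ _, ?_⟩
  intro e t he ht
  have hne1 : gm e (hp t) ≠ 0 := gm_ne e (by rw [hp_re]; norm_num)
  have hne2 : gm e ((starRingEnd ℂ) (hp t)) ≠ 0 := gm_ne e (by rw [hp_conj_re]; norm_num)
  refine ⟨?_, ?_, ?_⟩
  · intro w hw
    have hw' : -1 / 2 < w.re := hw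
    have e1 : gr e t = fun w => gm e (hp t + w) * gm e ((starRingEnd ℂ) (hp t) + w) /
      (gm e (hp t) * gm e ((starRingEnd ℂ) (hp t))) := funext fun w => gr_eq e t w
    rw [e1]
    apply DifferentiableAt.differentiableWithinAt
    refine DifferentiableAt.div_const ?_ _
    refine (gm_diff e ?_).mul (gm_diff e ?_)
    · rw [Complex.add_re, hp_re]; linarith
    · rw [Complex.add_re, hp_conj_re]; linarith
  · rw [gr_eq, add_zero, add_zero]
    exact div_self (mul_ne_zero hne1 hne2)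
  · intro w h1 h2
    refine le_trans ?_ (le_max_right _ _)
    rw [gr_eq, norm_div, norm_mul, norm_mul]
    have hconj : ‖gm e ((starRingEnd ℂ) (hp t))‖ = ‖gm e (hp t)‖ := by
      rw [← conj_gm, Complex.norm_conj]
    rw [hconj]
    have a1 : ‖gm e (hp t + w)‖ ≤ M ^ Fintype.card ι := by
      refine gm_le hM hM0 e he ?_ ?_
      · rw [Complex.add_re, hp_re]; linarith
      · rw [Complex.add_re, hp_re]; linarith
    have a2 : ‖gm e ((starRingEnd ℂ) (hp t) + w)‖ ≤ M ^ Fintype.card ι := by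
      refine gm_le hM hM0 e he ?_ ?_
      · rw [Complex.add_re, hp_conj_re]; linarith
      · rw [Complex.add_re, hp_conj_re]; linarith
    have a3 := gm_ge hcp.le hcl e he t ht
    have a4 : 0 < c ^ Fintype.card ι := pow_pos hcp _
    exact div_le_div₀ (by positivity)
      (mul_le_mul a1 a2 (norm_nonneg _) (by positivity)) (by positivity)
      (mul_le_mul a3 a3 a4.le (norm_nonneg _))

end Pool.Agent.Y279.NV
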